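import Mathlib

namespace Pool.Agent.Results.MP_7b4a8e_an.ThreeCycle

/-- `x` is a positive solution of `x_{n+1} = A / x_n^2 + 1 / x_{n-k}^p`, with the index shifted by
`k`: `x n` stands for `x_{n-k}`. -/
def IsSol (A p : ℝ) (k : ℕ) (x : ℕ → ℝ) : Prop :=
  (∀ n, 0 < x n) ∧ ∀ n, x (n + k + 1) = A / x (n + k) ^ 2 + 1 / x n ^ p

/-- `N` is the prime (least positive) period of `x`. -/
def IsPrimePeriod (x : ℕ → ℝ) (N : ℕ) : Prop :=
  0 < N ∧ (∀ n, x (n + N) = x n) ∧ ∀ M, 0 < M → (∀ n, x (n + M) = x n) → N ≤ M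

/-- **Answer to Q1: yes.** There is a solution of prime period three, with `k = 1` and `p = 1`. -/
theorem result : ∃ (A : ℝ) (x : ℕ → ℝ), 0 < A ∧ IsSol A 1 1 x ∧ IsPrimePeriod x 3 := by
  -- the root `t`
  have hcont : ContinuousOn (fun t : ℝ => t ^ 3 * ((4 - t) / 2) ^ 4 / 8 + 1 - t * ((4 - t) / 2))
      (Set.Icc 3 (7 / 2)) := by fun_prop
  have hmem : (0 : ℝ) ∈ Set.Icc ((fun t : ℝ => t ^ 3 * ((4 - t) / 2) ^ 4 / 8 + 1 -
      t * ((4 - t) / 2)) 3) ((fun t : ℝ => t ^ 3 * ((4 - t) / 2) ^ 4 / 8 + 1 -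
      t * ((4 - t) / 2)) (7 / 2)) := by
    constructor <;> norm_num
  obtain ⟨t, ⟨ht1, ht2⟩, hG⟩ := intermediate_value_Icc (by norm_num) hcont hmem
  simp only at hG
  set m := (4 - t) / 2 with hm
  have hm0 : 0 < m := by rw [hm]; linarith
  have ht0 : 0 < t := by linarith
  set z := Real.sqrt t with hz
  have hz0 : 0 < z := Real.sqrt_pos.2 ht0
  have hz2 : z ^ 2 = t := Real.sq_sqrt ht0.le
  set X := z * m with hX
  have hX0 : 0 < X := by positivity
  have hX2 : X ^ 2 = t * m ^ 2 := by rw [hX, mul_pow, hz2]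
  set A := t * X / 2 with hA
  have hA0 : 0 < A := by positivity
  -- the three relations
  have r1 : z = A / (2 / X) ^ 2 + 1 / X := by
    have h1 : z * X = t * X ^ 4 / 8 + 1 := by
      have e1 : z * X = t * m := by rw [hX, ← mul_assoc, ← sq, hz2]
      have e2 : X ^ 4 = t ^ 2 * m ^ 4 := by
        rw [show X ^ 4 = (X ^ 2) ^ 2 by ring, hX2]; ring
      rw [e1, e2]; linarith
    rw [hA]
    field_simp
    linarith
  have r2 : X = A / z ^ 2 + 1 / (2 / X) := by
    rw [hz2, hA]
    field_simp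
    ring
  have r3 : 2 / X = A / X ^ 2 + 1 / z := by
    rw [hA]
    have h1 : 2 * z = t * z / 2 + X := by rw [hX, hm]; ring
    field_simp
    linarith
  have hne : X ≠ 2 / X := by
    intro h
    have h1 : X ^ 2 = 2 := by
      rw [eq_div_iff hX0.ne'] at h
      rw [sq]; exact h
    rw [hX2] at h1
    have h2 : m ≤ 1 / 2 := by rw [hm]; linarith
    have h3 : m ^ 2 ≤ 1 / 4 := by nlinarith
    nlinarith
  -- the sequence
  set x : ℕ → ℝ := fun n => if n % 3 = 0 then X else if n % 3 = 1 then 2 / X else z with hx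
  have hper : ∀ n, x (n + 3) = x n := by
    intro n; simp only [hx, Nat.add_mod_right]
  refine ⟨A, x, hA0, ⟨?_, ?_⟩, ⟨by norm_num, hper, ?_⟩⟩
  · intro n
    simp only [hx]
    split_ifs <;> positivity
  · intro n
    have h3 : n % 3 < 3 := Nat.mod_lt _ (by norm_num)
    have hcases : n % 3 = 0 ∨ n % 3 = 1 ∨ n % 3 = 2 := by omega
    rw [Real.rpow_one]
    rcases hcases with h | h | h
    · have h1 : (n + 1) % 3 = 1 := by omega
      have h2 : (n + 1 + 1) % 3 = 2 := by omega
      simp only [hx, h, h1, h2]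
      norm_num
      have := r1
      norm_num at this
      linarith
    · have h1 : (n + 1) % 3 = 2 := by omega
      have h2 : (n + 1 + 1) % 3 = 0 := by omega
      simp only [hx, h, h1, h2]
      norm_num
      have := r2
      norm_num at this
      linarith
    · have h1 : (n + 1) % 3 = 0 := by omega
      have h2 : (n + 1 + 1) % 3 = 1 := by omega
      simp only [hx, h, h1, h2]
      norm_num
      have := r3
      norm_num at this
      linarith
  · intro M hM hMper
    by_contra hlt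
    push Not at hlt
    have hx0 : x 0 = X := by simp [hx]
    have hx1 : x 1 = 2 / X := by simp [hx]
    interval_cases M
    · have := hMper 0
      rw [zero_add, hx0, hx1] at this
      exact hne this.symm
    · have h1 := hMper 1
      have h2 := hper 0
      have h3 : x 3 = x 1 := h1
      have h4 : x 3 = x 0 := h2
      have h5 : x 0 = x 1 := h4.symm.trans h3
      rw [hx0, hx1] at h5
      exact hne h5

end Pool.Agent.Results.MP_7b4a8e_an.ThreeCycle
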